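import Pool.Agent.H.MP_47003a_an.Main

namespace Pool.Agent.Results.MP_47003a_an.NoRenorm

open Finset Filter Topology Pool.Agent.H.MP_47003a_an

theorem result : ∃ (B : Type) (_ : NormedAddCommGroup B) (_ : NormedSpace ℝ B) (_ : CompleteSpace B)
    (x : ℕ → B) (E : Submodule ℝ B),
    (∀ v : B, ∃! α : ℕ → ℝ, Tendsto (fun n => ∑ i ∈ range n, α i • x i) atTop (𝓝 v)) ∧
    IsClosed (E : Set B) ∧ (∃ p : B →L[ℝ] B, (∀ v, p v ∈ E) ∧ ∀ v ∈ E, p v = v) ∧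
    ¬ ∃ (N : Seminorm ℝ B) (c C : ℝ), 0 < c ∧ (∀ v, c * ‖v‖ ≤ N v ∧ N v ≤ C * ‖v‖) ∧
      (∀ (v : B) (α : ℕ → ℝ), Tendsto (fun n => ∑ i ∈ range n, α i • x i) atTop (𝓝 v) →
        ∀ n, N (∑ i ∈ range n, α i • x i) ≤ N v) ∧
      ∃ q : B →ₗ[ℝ] B, (∀ v, q v ∈ E) ∧ (∀ v ∈ E, q v = v) ∧ ∀ v, N (q v) ≤ N v :=
  ⟨B, inferInstance, inferInstance, inferInstance, x, (ContinuousLinearMap.snd ℝ L2 L4).ker,
    fun v => ⟨fun i => g i v, conv v, uniq v⟩, (ContinuousLinearMap.snd ℝ L2 L4).isClosed_ker,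
    ⟨ContinuousLinearMap.inl ℝ L2 L4 ∘L ContinuousLinearMap.fst ℝ L2 L4, fun _ => rfl,
      fun _ h => Prod.ext rfl (Eq.symm h)⟩,
    fun ⟨N, c, C, hc, h1, h2, q, q1, q2, q3⟩ =>
      no_norm N c C hc h1 (fun v => h2 v _ (conv v)) q q1 (fun _ => q2 _ rfl) q3⟩

end Pool.Agent.Results.MP_47003a_an.NoRenorm
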